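import Mathlib

set_option autoImplicit false

open scoped commutatorElement

namespace Pool.Agent.Y769.OC

variable {G : Type*} [Group G]

theorem decomp (K : Subgroup G) [hK : K.Normal] (g : G) (hgen : K ⊔ Subgroup.zpowers g = ⊤)
    (d : G) (hd : d ∈ commutator G) :
    ∃ κ ∈ K, ∃ e ∈ ⁅K, K⁆, d = g * κ * g⁻¹ * κ⁻¹ * e := by
  have hNn : (⁅K, K⁆ : Subgroup G).Normal := inferInstance
  set N : Subgroup G := ⁅K, K⁆ with hN
  let ψ := QuotientGroup.mk' N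
  have hψ : ∀ a, ψ a = 1 ↔ a ∈ N := fun a => QuotientGroup.eq_one_iff a
  have hcomm : ∀ a ∈ K, ∀ b ∈ K, ψ a * ψ b = ψ b * ψ a := by
    intro a ha b hb
    have h1 : ⁅a, b⁆ ∈ N := Subgroup.commutator_mem_commutator ha hb
    have h2 := (hψ _).2 h1
    rw [commutatorElement_def, map_mul, map_mul, map_mul, map_inv, map_inv] at h2
    rw [mul_inv_eq_one, mul_inv_eq_iff_eq_mul] at h2
    exact h2
  have hconj : ∀ k ∈ K, g * k * g⁻¹ * k⁻¹ ∈ K := fun k hk =>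
    K.mul_mem (hK.conj_mem k hk g) (K.inv_mem hk)
  let φ : K →* G ⧸ N := MonoidHom.mk' (fun k => ψ (g * k * g⁻¹ * (k : G)⁻¹)) (by
    intro a b
    have h1 := hcomm (a : G)⁻¹ (K.inv_mem a.2) _ (hconj b b.2)
    have e1 : g * ((a * b : K) : G) * g⁻¹ * ((a * b : K) : G)⁻¹ =
        (g * a * g⁻¹) * ((g * b * g⁻¹ * (b : G)⁻¹) * (a : G)⁻¹) := by push_cast; group
    have e2 : g * a * g⁻¹ * (a : G)⁻¹ * (g * b * g⁻¹ * (b : G)⁻¹) =
        (g * a * g⁻¹) * ((a : G)⁻¹ * (g * b * g⁻¹ * (b : G)⁻¹)) := by group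
    have key : ∀ A B C : G, ψ B * ψ C = ψ C * ψ B → ψ (A * (B * C)) = ψ (A * (C * B)) := by
      intro A B C h
      rw [map_mul ψ A, map_mul ψ A, map_mul ψ B, map_mul ψ C, h]
    show ψ _ = ψ _ * ψ _
    rw [← map_mul ψ, e1, e2]
    exact key _ _ _ h1.symm)
  have hφ : ∀ k : K, φ k = ψ (g * k * g⁻¹ * (k : G)⁻¹) := fun k => rfl
  let S : Subgroup G := φ.range.comap ψ
  have hS : ∀ s, s ∈ S ↔ ∃ k : K, φ k = ψ s := fun s => Iff.rfl
  have hNS : ∀ s ∈ N, s ∈ S := fun s hs => (hS s).2 ⟨1, by rw [map_one, (hψ s).2 hs]⟩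
  have hgS : ∀ k ∈ K, g * k * g⁻¹ * k⁻¹ ∈ S := fun k hk => (hS _).2 ⟨⟨k, hk⟩, rfl⟩
  have hcK : ∀ a ∈ K, ∀ s ∈ S, a * s * a⁻¹ ∈ S := by
    intro a ha s hs
    obtain ⟨k, hk⟩ := (hS s).1 hs
    refine (hS _).2 ⟨k, ?_⟩
    rw [map_mul, map_mul, ← hk, hφ, hcomm a ha _ (hconj k k.2), mul_assoc (ψ _) (ψ a),
      ← map_mul ψ a, mul_inv_cancel, map_one, mul_one]
  have hcg : ∀ s ∈ S, g * s * g⁻¹ ∈ S := by
    intro s hs
    obtain ⟨k, hk⟩ := (hS s).1 hs
    refine (hS _).2 ⟨⟨g * k * g⁻¹, hK.conj_mem k k.2 g⟩, ?_⟩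
    rw [map_mul, map_mul, ← hk, hφ, hφ, ← map_mul, ← map_mul]
    congr 1
    simp only
    group
  have hcg' : ∀ s ∈ S, g⁻¹ * s * g ∈ S := by
    intro s hs
    obtain ⟨k, hk⟩ := (hS s).1 hs
    refine (hS _).2 ⟨⟨g⁻¹ * k * g⁻¹⁻¹, hK.conj_mem k k.2 g⁻¹⟩, ?_⟩
    rw [map_mul, map_mul, ← hk, hφ, hφ, ← map_mul, ← map_mul]
    congr 1
    simp only
    group
  let T : Subgroup G :=
    { carrier := {a | ∀ s, s ∈ S ↔ a * s * a⁻¹ ∈ S}
      mul_mem' := by
        intro a b ha hb s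
        rw [hb s, ha (b * s * b⁻¹)]
        have : a * (b * s * b⁻¹) * a⁻¹ = a * b * s * (a * b)⁻¹ := by group
        rw [this]
      one_mem' := by intro s; simp
      inv_mem' := by
        intro a ha s
        have := ha (a⁻¹ * s * a⁻¹⁻¹)
        have e : a * (a⁻¹ * s * a⁻¹⁻¹) * a⁻¹ = s := by group
        rw [e] at this
        exact this.symm }
  have hT : T = ⊤ := by
    rw [eq_top_iff, ← hgen]
    refine sup_le ?_ ?_
    · intro a ha s
      refine ⟨hcK a ha s, fun h => ?_⟩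
      have := hcK a⁻¹ (K.inv_mem ha) _ h
      have e : a⁻¹ * (a * s * a⁻¹) * a⁻¹⁻¹ = s := by group
      rwa [e] at this
    · rw [Subgroup.zpowers_le]
      intro s
      refine ⟨hcg s, fun h => ?_⟩
      have := hcg' _ h
      have e : g⁻¹ * (g * s * g⁻¹) * g = s := by group
      rwa [e] at this
  have hSn : S.Normal := ⟨fun s hs a => ((hT ▸ Subgroup.mem_top a : a ∈ T) s).1 hs⟩
  let χ := QuotientGroup.mk' S
  have hχ : ∀ a, χ a = 1 ↔ a ∈ S := fun a => QuotientGroup.eq_one_iff a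
  have hχc : ∀ a b, χ a * χ b = χ b * χ a ↔ a * b * a⁻¹ * b⁻¹ ∈ S := by
    intro a b
    rw [← hχ, map_mul, map_mul, map_mul, map_inv, map_inv, mul_inv_eq_one,
      mul_inv_eq_iff_eq_mul]
  let C : G → Subgroup G := fun b => (Subgroup.centralizer {χ b}).comap χ
  have hC : ∀ a b, a ∈ C b ↔ χ a * χ b = χ b * χ a := by
    intro a b
    simp only [C, Subgroup.mem_comap, Subgroup.mem_centralizer_iff, Set.mem_singleton_iff,
      forall_eq]
    exact eq_comm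
  have hCtop : ∀ b, (∀ a ∈ K, a ∈ C b) → g ∈ C b → ∀ a, a ∈ C b := by
    intro b h1 h2 a
    have : (⊤ : Subgroup G) ≤ C b := by
      rw [← hgen]
      exact sup_le h1 (by rw [Subgroup.zpowers_le]; exact h2)
    exact this (Subgroup.mem_top a)
  have hCK : ∀ b ∈ K, ∀ a, a ∈ C b := by
    intro b hb
    apply hCtop
    · intro a ha
      rw [hC, hχc]
      apply hNS
      exact Subgroup.commutator_mem_commutator ha hb
    · rw [hC, hχc]
      exact hgS b hb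
  have hCg : ∀ a, a ∈ C g := by
    apply hCtop
    · intro a ha
      rw [hC]
      exact ((hC _ _).1 (hCK a ha g)).symm
    · rw [hC]
  have hCall : ∀ b a, a ∈ C b := by
    intro b
    apply hCtop
    · intro a ha
      rw [hC]
      exact ((hC _ _).1 (hCK a ha b)).symm
    · rw [hC]
      exact ((hC _ _).1 (hCg b)).symm
  have hle : commutator G ≤ S := by
    rw [commutator_def, Subgroup.commutator_le]
    intro a _ b _
    rw [commutatorElement_def, ← hχc, ← hC]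
    exact hCall b a
  obtain ⟨k, hk⟩ := (hS d).1 (hle hd)
  refine ⟨k, k.2, (g * k * g⁻¹ * (k : G)⁻¹)⁻¹ * d, ?_, ?_⟩
  · rw [← hψ, map_mul, map_inv, ← hφ, hk, inv_mul_cancel]
  · rw [mul_inv_cancel_left]

end Pool.Agent.Y769.OC
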