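import Pool.Agent.Y769.OC.Main
import Pool.Agent.Y769.OC.Dec

set_option autoImplicit false

namespace Pool.Agent.Y769.OC

universe u

theorem near_of_mem : ∀ (n : ℕ) (G : Type u) [Group G] [Finite G], Nat.card G = n →
    Odd (Nat.card G) → Group.IsSolvable G → ∀ b c : G, b * c⁻¹ ∈ commutator G → Near b c := by
  intro n
  induction n using Nat.strong_induction_on with
  | _ n ih =>
    intro G _ _ hn hodd hsol b c hbc
    rcases subsingleton_or_nontrivial G with hG | hG
    · rw [Subsingleton.elim b c]
      exact near_self hodd c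
    have hlt : commutator G < ⊤ := Group.IsSolvable.commutator_lt_top_of_nontrivial G
    obtain ⟨M, hM, hcM⟩ := (eq_top_or_exists_le_coatom (commutator G)).resolve_left hlt.ne
    have hMn : M.Normal := by
      refine ⟨fun m hm g => ?_⟩
      have h1 : g * m * g⁻¹ * m⁻¹ ∈ M := by
        apply hcM
        exact Subgroup.commutator_mem_commutator (Subgroup.mem_top g) (Subgroup.mem_top m)
      simpa using M.mul_mem h1 hm
    obtain ⟨g, hg⟩ : ∃ g : G, g ∉ M := by
      by_contra hcon
      push Not at hcon
      exact hM.1 (eq_top_iff.2 fun x _ => hcon x)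
    have hgen : M ⊔ Subgroup.zpowers g = ⊤ := by
      apply hM.2
      refine lt_of_le_of_ne le_sup_left ?_
      intro h
      apply hg
      rw [h]
      exact (le_sup_right : Subgroup.zpowers g ≤ M ⊔ Subgroup.zpowers g)
        (Subgroup.mem_zpowers g)
    let π := QuotientGroup.mk' M
    have hπ : ∀ a, π a = 1 ↔ a ∈ M := fun a => QuotientGroup.eq_one_iff a
    have hker : π.ker = M := QuotientGroup.ker_mk' M
    have hq : ∀ i : G ⧸ M, i ∈ Subgroup.zpowers (π g) := by
      intro i
      obtain ⟨a, rfl⟩ := QuotientGroup.mk'_surjective M i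
      have ha : a ∈ ((M ⊔ Subgroup.zpowers g : Subgroup G) : Set G) := by rw [hgen]; trivial
      rw [Subgroup.normal_mul] at ha
      obtain ⟨m, hm, z, ⟨k, rfl⟩, rfl⟩ := ha
      refine ⟨k, ?_⟩
      simp only [map_mul, map_zpow]
      rw [(hπ m).2 hm, one_mul]
    have hoddQ : Odd (Nat.card (G ⧸ M)) :=
      Odd.of_dvd_nat hodd (Subgroup.card_quotient_dvd_card M)
    have hkertop : π.ker ≠ ⊤ := by rw [hker]; exact hM.1
    have hcard : Nat.card π.ker < n := by
      rw [← hn]
      exact lt_of_le_of_ne (Subgroup.card_le_card_group _)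
        (fun h => hkertop (Subgroup.card_eq_iff_eq_top _ |>.1 h))
    have hoddK : Odd (Nat.card π.ker) := Odd.of_dvd_nat hodd (Subgroup.card_subgroup_dvd_card _)
    have ihK : ∀ b c : π.ker, b * c⁻¹ ∈ commutator π.ker → Near b c :=
      ih _ hcard π.ker rfl hoddK inferInstance
    have hgen' : π.ker ⊔ Subgroup.zpowers g = ⊤ := by rw [hker]; exact hgen
    obtain ⟨κ, hκ, e, he, hd⟩ := decomp π.ker g hgen' (b * c⁻¹) hbc
    rw [← Subgroup.map_subtype_commutator] at he
    obtain ⟨e', he', rfl⟩ := he
    have hfinish : ∀ z c' : G, z * c'⁻¹ = b * c⁻¹ → Near z c' → Near b c := by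
      intro z c' h1 h2
      have h3 := h2.mul_right (c'⁻¹ * c)
      rw [← mul_assoc, h1, inv_mul_cancel_right, mul_inv_cancel_left] at h3
      exact h3
    by_cases hne : g * κ * g⁻¹ * κ⁻¹ = 1
    · rw [hne, one_mul] at hd
      have hn1 : Near e' 1 := ihK e' 1 (by simpa using he')
      obtain ⟨θ, x₀, h1, h2⟩ := near_iff.1 hn1
      obtain ⟨s, hs⟩ : ∃ s : G ⧸ M → G, ∀ i, π (s i) = i :=
        ⟨Function.surjInv (QuotientGroup.mk'_surjective M),
          Function.surjInv_eq (QuotientGroup.mk'_surjective M)⟩
      obtain ⟨Θ, b1, b2, b3⟩ := extend hodd hoddQ π s s hs hs θ x₀ e' 1 h1 h2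
      apply hfinish (e' : G) 1 (by rw [hd]; simp)
      refine near_iff.2 ⟨Θ, x₀, ?_, b3⟩
      rw [b1]
      have := congrArg Subtype.val h1
      simpa using this
    · obtain ⟨z, c', h1, h2⟩ := step hodd hoddQ π g hq (fun h => hg ((hπ g).1 h)) ihK κ hκ hne e' he'
      exact hfinish z c' (by rw [h1, hd]; rfl) h2

theorem mem_of_near {G : Type u} [Group G] [Finite G] (hodd : Odd (Nat.card G)) {b c : G}
    (h : Near b c) : b * c⁻¹ ∈ commutator G := by
  classical
  have := Fintype.ofFinite G
  obtain ⟨θ, x₀, h1, h2⟩ := near_iff.1 h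
  let ab : G →* Abelianization G := Abelianization.of
  have hP : ∏ x : G, ab x = 1 := by
    have h3 : ∏ x : G, (ab x)⁻¹ = ∏ x : G, ab x := by
      rw [← Equiv.prod_comp (Equiv.inv G) (fun x => ab x)]
      simp
    rw [Finset.prod_inv_distrib] at h3
    have hoddA : Odd (Nat.card (Abelianization G)) :=
      Odd.of_dvd_nat hodd (Subgroup.card_quotient_dvd_card _)
    apply sq_inj hoddA
    rw [mul_one]
    nth_rewrite 1 [← h3]
    exact inv_mul_cancel _
  have hA : ∏ x : G, ab (x * θ x) = 1 := by
    simp only [map_mul]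
    rw [Finset.prod_mul_distrib, Equiv.prod_comp θ (fun x => ab x), hP, mul_one]
  have hB : ∏ x : G, ab (sym θ x₀ b x) = 1 := by
    rw [← hP]
    exact Equiv.prod_comp (Equiv.ofBijective _ (Finite.injective_iff_bijective.1 h2))
      (fun x => ab x)
  rw [← Finset.mul_prod_erase _ _ (Finset.mem_univ x₀)] at hA hB
  have hC : ∏ x ∈ Finset.univ.erase x₀, ab (sym θ x₀ b x) =
      ∏ x ∈ Finset.univ.erase x₀, ab (x * θ x) := by
    apply Finset.prod_congr rfl
    intro x hx
    unfold sym
    rw [if_neg (Finset.ne_of_mem_erase hx)]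
  rw [hC, ← hA] at hB
  have hD := mul_right_cancel hB
  unfold sym at hD
  rw [if_pos rfl, h1] at hD
  have hE : ab (b * c⁻¹) = 1 := by rw [map_mul, map_inv, hD, mul_inv_cancel]
  exact (QuotientGroup.eq_one_iff _).1 hE

theorem near_iff_count {G : Type u} [Group G] [Finite G] (b c : G) :
    Near b c ↔ ∃ θ : Equiv.Perm G, ∀ s : G,
      {x : G | x * θ x = s}.ncard + {x : G | x = s ∧ s = b}.ncard =
        1 + {x : G | x = s ∧ s = c}.ncard := by
  classical
  have hind : ∀ s a : G, {x : G | x = s ∧ s = a}.ncard = if s = a then 1 else 0 := by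
    intro s a
    by_cases h : s = a
    · rw [if_pos h]
      have : {x : G | x = s ∧ s = a} = {s} := by ext x; simp [h]
      rw [this, Set.ncard_singleton]
    · rw [if_neg h]
      have : {x : G | x = s ∧ s = a} = ∅ := by ext x; simp [h]
      rw [this, Set.ncard_empty]
  simp only [hind]
  constructor
  · intro h
    obtain ⟨θ, x₀, h1, h2⟩ := near_iff.1 h
    have hsurj := Finite.injective_iff_surjective.1 h2
    refine ⟨θ, fun s => ?_⟩
    obtain ⟨r, hr⟩ := hsurj s
    have hx : ∀ x, x ≠ x₀ → (x * θ x = s ↔ x = r) := by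
      intro x hx0
      constructor
      · intro hxs
        apply h2
        rw [hr]
        unfold sym
        rw [if_neg hx0, hxs]
      · rintro rfl
        unfold sym at hr
        rwa [if_neg hx0] at hr
    have hrb : r = x₀ ↔ s = b := by
      constructor
      · rintro rfl
        unfold sym at hr
        rw [if_pos rfl] at hr
        exact hr.symm
      · rintro rfl
        apply h2
        rw [hr]
        unfold sym
        rw [if_pos rfl]
    by_cases hb : s = b
    · have hr0 : r = x₀ := hrb.2 hb
      by_cases hc : s = c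
      · have : {x : G | x * θ x = s} = {x₀} := by
          ext x
          simp only [Set.mem_ofPred_eq, Set.mem_singleton_iff]
          by_cases hx0 : x = x₀
          · simp [hx0, h1, hc]
          · rw [hx x hx0, hr0]
        rw [this, Set.ncard_singleton, if_pos hb, if_pos hc]
      · have : {x : G | x * θ x = s} = ∅ := by
          ext x
          simp only [Set.mem_ofPred_eq, Set.mem_empty_iff_false, iff_false]
          by_cases hx0 : x = x₀
          · rw [hx0, h1]; exact fun h => hc h.symm
          · rw [hx x hx0, hr0]; exact hx0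
        rw [this, Set.ncard_empty, if_pos hb, if_neg hc]
    · have hr0 : r ≠ x₀ := fun h => hb (hrb.1 h)
      by_cases hc : s = c
      · have : {x : G | x * θ x = s} = {x₀, r} := by
          ext x
          simp only [Set.mem_ofPred_eq, Set.mem_insert_iff, Set.mem_singleton_iff]
          by_cases hx0 : x = x₀
          · simp [hx0, h1, hc]
          · rw [hx x hx0]; simp [hx0]
        rw [this, Set.ncard_pair hr0.symm, if_neg hb, if_pos hc]
      · have : {x : G | x * θ x = s} = {r} := by
          ext x
          simp only [Set.mem_ofPred_eq, Set.mem_singleton_iff]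
          by_cases hx0 : x = x₀
          · rw [hx0, h1]
            exact ⟨fun h => absurd h.symm hc, fun h => absurd h.symm hr0⟩
          · rw [hx x hx0]
        rw [this, Set.ncard_singleton, if_neg hb, if_neg hc]
  · rintro ⟨θ, hθ⟩
    have hc := hθ c
    rw [if_pos rfl] at hc
    have hcne : {x : G | x * θ x = c}.ncard ≠ 0 := by
      intro h
      rw [h] at hc
      split_ifs at hc <;> omega
    obtain ⟨x₀, hx₀⟩ := Set.nonempty_of_ncard_ne_zero hcne
    have hx₀' : x₀ * θ x₀ = c := hx₀
    refine ⟨θ, x₀, hx₀', fun x y => ⟨?_, ?_⟩⟩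
    · intro _ hy he
      have hb := hθ b
      rw [if_pos rfl] at hb
      have hyb : y ∈ {x : G | x * θ x = b} := he.symm
      have hpos : 0 < {x : G | x * θ x = b}.ncard :=
        (Set.ncard_pos (Set.toFinite _)).2 ⟨y, hyb⟩
      by_cases hbc : b = c
      · rw [if_pos hbc] at hb
        have h1 : {x : G | x * θ x = b}.ncard = 1 := by omega
        obtain ⟨a, ha⟩ := Set.ncard_eq_one.1 h1
        have e1 : y = a := by rw [ha] at hyb; exact hyb
        have e2 : x₀ = a := by
          have : x₀ ∈ {x : G | x * θ x = b} := by rw [hbc]; exact hx₀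
          rw [ha] at this
          exact this
        exact hy (e1.trans e2.symm)
      · rw [if_neg hbc] at hb
        omega
    · intro hx hy he
      by_contra hxy
      set s := x * θ x with hs
      have hsub : ({x, y} : Set G) ⊆ {x : G | x * θ x = s} := by
        intro z hz
        rcases hz with rfl | rfl
        · exact hs.symm
        · exact he.symm
      have h2 : 2 ≤ {x : G | x * θ x = s}.ncard := by
        rw [← Set.ncard_pair hxy]
        exact Set.ncard_le_ncard hsub (Set.toFinite _)
      have hh := hθ s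
      by_cases hsc : s = c
      · rw [if_pos hsc] at hh
        have hsub3 : ({x₀, x, y} : Set G) ⊆ {x : G | x * θ x = s} := by
          intro z hz
          rcases hz with rfl | hz
          · rw [hsc]; exact hx₀
          · exact hsub hz
        have h3 : ({x₀, x, y} : Set G).ncard = 3 := by
          rw [Set.ncard_eq_three]
          exact ⟨x₀, x, y, fun h => hx h.symm, fun h => hy h.symm, hxy, rfl⟩
        have h4 := Set.ncard_le_ncard hsub3 (Set.toFinite _)
        rw [h3] at h4
        omega
      · rw [if_neg hsc] at hh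
        omega

end Pool.Agent.Y769.OC
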