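import Pool.Agent.Y769.OC.Switch

set_option autoImplicit false

namespace Pool.Agent.Y769.OC

section

variable {G : Type*} [Group G]

theorem sq_inj [Finite G] (hodd : Odd (Nat.card G)) {a b : G} (h : a * a = b * b) : a = b := by
  have hc : (Nat.card G).Coprime 2 := Nat.coprime_two_right.2 hodd
  have := (Nat.Coprime.pow_left_bijective (G := G) hc).1
  exact this (by simpa [pow_two] using h)

/-- squares -/
theorem near_self [Finite G] (hodd : Odd (Nat.card G)) (b : G) : Near b b := by
  have h1 : Near (1 : G) 1 := by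
    refine ⟨Equiv.refl G, 1, by simp, fun x y => ⟨?_, ?_⟩⟩
    · intro hx hy he
      apply hy
      apply sq_inj hodd
      simpa using he.symm
    · intro hx hy he
      exact sq_inj hodd he
  simpa using h1.mul_right b

/-- The base transversal: the cosets of a normal subgroup. -/
theorem extend {Q : Type*} [Group Q] [Finite G] [Finite Q] (hodd : Odd (Nat.card G))
    (hoddQ : Odd (Nat.card Q)) (π : G →* Q) (x y : Q → G)
    (hx : ∀ i, π (x i) = i) (hy : ∀ i, π (y i) = i)
    (θ : Equiv.Perm π.ker) (x₀ w c : π.ker) (hc : x₀ * θ x₀ = c)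
    (hinj : Function.Injective (sym θ x₀ w)) :
    ∃ Θ : Equiv.Perm G, (∀ k : π.ker, Θ k = θ k) ∧ (∀ i, i ≠ 1 → Θ (x i) = y i) ∧
      Function.Injective (sym Θ (x₀ : G) (w : G)) := by
  classical
  let f : G → G := fun g => if h : g ∈ π.ker then ((θ ⟨g, h⟩ : π.ker) : G)
    else (x (π g))⁻¹ * g * y (π g)
  have hf1 : ∀ g (h : g ∈ π.ker), f g = (θ ⟨g, h⟩ : π.ker) := fun g h => dif_pos h
  have hf2 : ∀ g (_ : g ∉ π.ker), f g = (x (π g))⁻¹ * g * y (π g) := fun g h => dif_neg h
  have hfπ : ∀ g, π (f g) = π g := by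
    intro g
    by_cases h : g ∈ π.ker
    · rw [hf1 g h]
      have h1 : π ((θ ⟨g, h⟩ : π.ker) : G) = 1 := (θ ⟨g, h⟩).2
      rw [h1]
      exact (MonoidHom.mem_ker.1 h).symm
    · rw [hf2 g h]
      simp only [map_mul, map_inv, hx, hy]
      group
  have hfinj : Function.Injective f := by
    intro g g' h
    have hp : π g = π g' := by rw [← hfπ g, ← hfπ g', h]
    by_cases hg : g ∈ π.ker
    · have hg' : g' ∈ π.ker := by
        rw [MonoidHom.mem_ker] at hg ⊢
        rw [← hp, hg]
      rw [hf1 g hg, hf1 g' hg'] at h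
      exact congrArg Subtype.val (θ.injective (Subtype.ext h))
    · have hg' : g' ∉ π.ker := by
        rw [MonoidHom.mem_ker] at hg ⊢
        rwa [← hp]
      rw [hf2 g hg, hf2 g' hg', hp] at h
      simpa using h
  let Θ : Equiv.Perm G := Equiv.ofBijective f (Finite.injective_iff_bijective.1 hfinj)
  have hΘ : ∀ g, Θ g = f g := fun g => rfl
  refine ⟨Θ, ?_, ?_, ?_⟩
  · intro k
    rw [hΘ, hf1 k k.2]
  · intro i hi
    have : x i ∉ π.ker := by
      rw [MonoidHom.mem_ker, hx]
      exact hi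
    rw [hΘ, hf2 _ this, hx]
    group
  · have hs1 : ∀ g (h : g ∈ π.ker), sym Θ (x₀ : G) (w : G) g = (sym θ x₀ w ⟨g, h⟩ : π.ker) := by
      intro g h
      unfold sym
      by_cases hg : g = x₀
      · subst hg
        rw [if_pos rfl, if_pos rfl]
      · rw [if_neg hg, if_neg (fun hh => hg (congrArg Subtype.val hh)), hΘ, hf1 g h]
        rfl
    have hs2 : ∀ g (_ : g ∉ π.ker), sym Θ (x₀ : G) (w : G) g = g * ((x (π g))⁻¹ * g * y (π g)) := by
      intro g h
      unfold sym
      rw [if_neg (fun hg : g = (x₀ : G) => h (by rw [hg]; exact x₀.2)), hΘ, hf2 g h]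
    have hsπ : ∀ g, π (sym Θ (x₀ : G) (w : G) g) = π g * π g := by
      intro g
      by_cases h : g ∈ π.ker
      · rw [hs1 g h]
        have h1 : π ((sym θ x₀ w ⟨g, h⟩ : π.ker) : G) = 1 := (sym θ x₀ w ⟨g, h⟩).2
        rw [h1, MonoidHom.mem_ker.1 h, mul_one]
      · rw [hs2 g h]
        simp only [map_mul, map_inv, hx, hy]
        group
    intro g g' h
    have hp : π g = π g' := by
      apply sq_inj hoddQ
      rw [← hsπ, ← hsπ, h]
    by_cases hg : g ∈ π.ker
    · have hg' : g' ∈ π.ker := by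
        rw [MonoidHom.mem_ker] at hg ⊢
        rw [← hp, hg]
      rw [hs1 g hg, hs1 g' hg'] at h
      exact congrArg Subtype.val (hinj (Subtype.ext h))
    · have hg' : g' ∉ π.ker := by
        rw [MonoidHom.mem_ker] at hg ⊢
        rwa [← hp]
      rw [hs2 g hg, hs2 g' hg', hp] at h
      have e : ∀ k : G, k * ((x (π g'))⁻¹ * k * y (π g')) =
          (k * (x (π g'))⁻¹) * (k * (x (π g'))⁻¹) * (x (π g') * y (π g')) := by
        intro k; group
      rw [e g, e g'] at h
      exact mul_right_cancel (sq_inj hodd (mul_right_cancel h))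

theorem pow_succ_comm_aux (g : G) (p : ℕ) : g⁻¹ * g ^ p = g ^ p * g⁻¹ :=
  (Commute.pow_right (Commute.inv_left (Commute.refl g)) p)

/-- One switching on top of a chain of the kernel. -/
theorem step {Q : Type*} [Group Q] [Finite G] [Finite Q] (hodd : Odd (Nat.card G))
    (hoddQ : Odd (Nat.card Q)) (π : G →* Q) (g : G)
    (hq : ∀ i : Q, i ∈ Subgroup.zpowers (π g)) (hQ : π g ≠ 1)
    (ih : ∀ b c : π.ker, b * c⁻¹ ∈ commutator π.ker → Near b c)
    (κ : G) (hκ : π κ = 1) (hne : g * κ * g⁻¹ * κ⁻¹ ≠ 1) (e : π.ker)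
    (he : e ∈ commutator π.ker) :
    ∃ z c : G, z * c⁻¹ = g * κ * g⁻¹ * κ⁻¹ * e ∧ Near z c := by
  classical
  set q := π g with hqdef
  set p := orderOf q with hp
  have hpcard : p = Nat.card Q := orderOf_eq_card_of_forall_mem_zpowers hq
  have hpodd : Odd p := hpcard ▸ hoddQ
  have hp1 : p ≠ 1 := by
    intro h
    rw [hp, orderOf_eq_one_iff] at h
    exact hQ h
  obtain ⟨j, hj⟩ : ∃ j, p = 2 * j + 3 := by
    obtain ⟨k, hk⟩ := hpodd
    exact ⟨k - 1, by omega⟩
  have hpos : 0 < p := by omega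
  have hlog : ∀ i : Q, ∃ k, k < p ∧ q ^ k = i := by
    intro i
    have := (isOfFinOrder_of_finite q).mem_powers_iff_mem_range_orderOf.1
      ((mem_powers_iff_mem_zpowers).2 (hq i))
    simpa using this
  choose l he1 he2 using hlog
  have heq : ∀ k, k < p → l (q ^ k) = k := by
    intro k hk
    exact pow_injOn_Iio_orderOf (he1 _) hk (he2 _)
  let X : ℕ → G := fun k => if k ≤ j then g ^ k else κ * g ^ k
  let Y : ℕ → G := fun k => if k ≤ j + 1 then g ^ k else
    g ^ ((k : ℤ) - p + 1) * κ * g ^ ((p : ℤ) - 1)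
  have hX : ∀ k, π (X k) = q ^ k := by
    intro k
    by_cases h : k ≤ j
    · simp only [X, if_pos h, map_pow, ← hqdef]
    · simp only [X, if_neg h, map_mul, hκ, one_mul, map_pow, ← hqdef]
  have hY : ∀ k, π (Y k) = q ^ k := by
    intro k
    by_cases h : k ≤ j + 1
    · simp only [Y, if_pos h, map_pow, ← hqdef]
    · simp only [Y, if_neg h, map_mul, hκ, mul_one, map_zpow, ← hqdef]
      rw [← zpow_add, ← zpow_natCast]
      congr 1
      ring
  have hXY : ∀ k, X k * Y (k + 2) = X (k + 1) * Y (k + 1) := by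
    intro k
    rcases lt_trichotomy k j with h | h | h
    · simp only [X, Y, if_pos (show k ≤ j by omega), if_pos (show k + 2 ≤ j + 1 by omega),
        if_pos (show k + 1 ≤ j by omega), if_pos (show k + 1 ≤ j + 1 by omega)]
      rw [← pow_add, ← pow_add]
      congr 1
      omega
    · subst h
      simp only [X, Y, if_pos (le_refl k), if_neg (show ¬ k + 2 ≤ k + 1 by omega),
        if_neg (show ¬ k + 1 ≤ k by omega), if_pos (le_refl (k + 1))]
      rw [← mul_assoc, ← mul_assoc, ← zpow_natCast g k, ← zpow_add]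
      have h0 : (k : ℤ) + (((k + 2 : ℕ) : ℤ) - p + 1) = 0 := by rw [hj]; push_cast; ring
      rw [h0, zpow_zero, one_mul, mul_assoc, ← pow_add, ← zpow_natCast]
      congr 2
      rw [hj]; push_cast; ring
    · simp only [X, Y, if_neg (show ¬ k ≤ j by omega), if_neg (show ¬ k + 2 ≤ j + 1 by omega),
        if_neg (show ¬ k + 1 ≤ j by omega), if_neg (show ¬ k + 1 ≤ j + 1 by omega)]
      have h0 : (k : ℤ) + (((k + 2 : ℕ) : ℤ) - p + 1) =
        ((k + 1 : ℕ) : ℤ) + (((k + 1 : ℕ) : ℤ) - p + 1) := by push_cast; ring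
      have h1 : ∀ (a : ℕ) (b : ℤ), κ * g ^ a * (g ^ b * κ * g ^ ((p : ℤ) - 1)) =
          κ * g ^ ((a : ℤ) + b) * κ * g ^ ((p : ℤ) - 1) := by
        intro a b
        rw [zpow_add, zpow_natCast]
        simp only [mul_assoc]
      rw [h1, h1, h0]
  let l' : Q → ℕ := fun i => if l i = 0 then p else l i
  have hl' : ∀ i, q ^ l' i = i := by
    intro i
    by_cases h : l i = 0
    · have h2 := he2 i
      rw [h, pow_zero] at h2
      simp only [l', h, if_true]
      rw [hp, pow_orderOf_eq_one, h2]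
    · simp only [l', h, if_false]
      exact he2 i
  have hl'eq : ∀ k, 1 ≤ k → k ≤ p → l' (q ^ k) = k := by
    intro k h1 h2
    rcases Nat.lt_or_ge k p with h | h
    · simp only [l', heq k h]
      rw [if_neg (by omega)]
    · have hkp : k = p := le_antisymm h2 h
      subst hkp
      have : l (q ^ p) = 0 := by
        have := heq 0 hpos
        rw [pow_zero] at this
        rw [hp, pow_orderOf_eq_one, this]
      simp only [l', this, if_true]
  have h1 : ∀ i, i ≠ q⁻¹ → X (l i) * Y (l' (i * q * q)) = X (l (i * q)) * Y (l' (i * q)) := by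
    intro i hi
    have hk : l i ≤ p - 2 := by
      by_contra hcon
      push Not at hcon
      have h1 := he1 i
      have : l i = p - 1 := by omega
      apply hi
      have h2 := he2 i
      rw [this] at h2
      rw [eq_inv_iff_mul_eq_one, ← h2, ← pow_succ, Nat.sub_add_cancel (by omega), hp,
        pow_orderOf_eq_one]
    have hi1 : i * q = q ^ (l i + 1) := by rw [pow_succ, he2]
    have hi2 : i * q * q = q ^ (l i + 2) := by rw [pow_succ, ← hi1]
    rw [hi2, hi1, heq (l i + 1) (by omega), hl'eq (l i + 1) (by omega) (by omega),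
      hl'eq (l i + 2) (by omega) (by omega)]
    exact hXY _
  have hinv : q⁻¹ = q ^ (p - 1) := by
    rw [inv_eq_iff_mul_eq_one, ← pow_succ', Nat.sub_add_cancel (by omega), hp,
      pow_orderOf_eq_one]
  have e0 : l 1 = 0 := by
    have := heq 0 hpos
    rwa [pow_zero] at this
  have e1 : l' 1 = p := by simp only [l', e0, if_true]
  have e2 : l' q = 1 := by
    have := hl'eq 1 le_rfl (by omega)
    rwa [pow_one] at this
  have h2 : X (l q⁻¹) * Y (l' q) = κ * g ^ p := by
    rw [hinv, heq (p - 1) (by omega), e2]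
    simp only [X, Y, if_neg (show ¬ p - 1 ≤ j by omega), if_pos (show 1 ≤ j + 1 by omega), pow_one]
    rw [mul_assoc, ← pow_succ, Nat.sub_add_cancel (by omega)]
  have hX1 : X (l 1) = 1 := by
    rw [e0]
    simp only [X, if_pos (Nat.zero_le j), pow_zero]
  have hY1 : Y (l' 1) = g * κ * g ^ ((p : ℤ) - 1) := by
    rw [e1]
    simp only [Y, if_neg (show ¬ p ≤ j + 1 by omega)]
    rw [show (p : ℤ) - p + 1 = 1 by ring, zpow_one]
  -- the chain of the kernel
  have hgp : π (g ^ p) = 1 := by rw [map_pow, ← hqdef, hp, pow_orderOf_eq_one]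
  have hwk : π (κ * g ^ p) = 1 := by rw [map_mul, hκ, hgp, mul_one]
  have hyk : π (g * κ * g ^ ((p : ℤ) - 1)) = 1 := by
    rw [← hY1, hY, e1, hp, pow_orderOf_eq_one]
  let w : π.ker := ⟨κ * g ^ p, hwk⟩
  let y₁ : π.ker := ⟨g * κ * g ^ ((p : ℤ) - 1), hyk⟩
  let c : π.ker := e⁻¹ * w
  have hnear : Near w c := by
    apply ih
    simpa [c] using he
  have hzw : y₁ ≠ w := by
    intro h
    apply hne
    have h' : g * κ * g ^ ((p : ℤ) - 1) = κ * g ^ p := congrArg Subtype.val h
    rw [zpow_sub_one, zpow_natCast, ← mul_assoc] at h'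
    have h3 : g * κ * g ^ p * g⁻¹ = g * κ * g⁻¹ * g ^ p := by
      rw [mul_assoc (g * κ), ← pow_succ_comm_aux g p, ← mul_assoc]
    rw [h3] at h'
    rw [mul_right_cancel h', mul_inv_cancel]
  obtain ⟨θ, x₀, a1, a2, a3, a4⟩ := normalise hnear hzw (x₁ := 1) (y₁ := y₁) (one_mul _)
  obtain ⟨Θ, b1, b2, b3⟩ := extend hodd hoddQ π (fun i => X (l i)) (fun i => Y (l' i))
    (fun i => by rw [hX, he2]) (fun i => by rw [hY, hl']) θ x₀ w c a1 a4
  have hfin := switch q (fun i => X (l i)) (fun i => Y (l' i)) ?_ Θ (x₀ : G) (w : G) (c : G)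
    ?_ b3 ?_ ?_ h1 h2
  · refine ⟨_, _, ?_, hfin⟩
    rw [hX1, hY1, one_mul]
    show g * κ * g ^ ((p : ℤ) - 1) * ((e : G)⁻¹ * (κ * g ^ p))⁻¹ = _
    rw [zpow_sub_one, zpow_natCast]
    rw [← pow_succ_comm_aux g p]
    group
  · intro i i' h
    have := congrArg π h
    simpa only [hX, he2] using this
  · rw [b1, ← a1]
    rfl
  · intro i
    by_cases hi : i = 1
    · subst hi
      rw [hX1, hY1]
      have := b1 1
      rw [a2] at this
      exact this
    · exact b2 i hi
  · intro i h
    have hi : i = 1 := by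
      have h' := congrArg π h
      rw [hX, he2] at h'
      rw [h']
      exact x₀.2
    subst hi
    apply a3
    apply Subtype.ext
    rw [← h, hX1]
    rfl

end

end Pool.Agent.Y769.OC
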