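import Mathlib

set_option autoImplicit false

namespace Pool.Agent.Y769.OC

/-- There is a permutation `θ` with `x₀ * θ x₀ = c` such that replacing this symbol by `b` makes all
symbols distinct. -/
def Near {G : Type*} [Group G] (b c : G) : Prop :=
  ∃ θ : Equiv.Perm G, ∃ x₀ : G, x₀ * θ x₀ = c ∧
    ∀ x y : G, (x = x₀ → y ≠ x₀ → b ≠ y * θ y) ∧ (x ≠ x₀ → y ≠ x₀ → x * θ x = y * θ y → x = y)

section

variable {G : Type*} [Group G]

open Classical in
/-- the updated symbol map -/
noncomputable def sym (θ : Equiv.Perm G) (x₀ b : G) : G → G :=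
  fun x => if x = x₀ then b else x * θ x

theorem near_iff {b c : G} : Near b c ↔ ∃ θ : Equiv.Perm G, ∃ x₀ : G, x₀ * θ x₀ = c ∧
    Function.Injective (sym θ x₀ b) := by
  classical
  constructor
  · rintro ⟨θ, x₀, h, h'⟩
    refine ⟨θ, x₀, h, ?_⟩
    intro x y hxy
    unfold sym at hxy
    by_cases hx : x = x₀ <;> by_cases hy : y = x₀
    · rw [hx, hy]
    · rw [if_pos hx, if_neg hy] at hxy
      exact absurd hxy ((h' x y).1 hx hy)
    · rw [if_neg hx, if_pos hy] at hxy
      exact absurd hxy.symm ((h' y x).1 hy hx)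
    · rw [if_neg hx, if_neg hy] at hxy
      exact (h' x y).2 hx hy hxy
  · rintro ⟨θ, x₀, h, h'⟩
    refine ⟨θ, x₀, h, fun x y => ⟨?_, ?_⟩⟩
    · intro hx hy he
      apply hy
      have : sym θ x₀ b y = sym θ x₀ b x₀ := by
        unfold sym
        rw [if_neg hy, if_pos rfl, he]
      exact h' this
    · intro hx hy he
      apply h'
      unfold sym
      rw [if_neg hx, if_neg hy, he]

theorem Near.mul_right {b c : G} (h : Near b c) (u : G) : Near (b * u) (c * u) := by
  obtain ⟨θ, x₀, h1, h2⟩ := h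
  refine ⟨θ.trans (Equiv.mulRight u), x₀, ?_, fun x y => ⟨?_, ?_⟩⟩
  · simp [← h1, mul_assoc]
  · intro hx hy he
    apply (h2 x y).1 hx hy
    simp only [Equiv.trans_apply, Equiv.coe_mulRight] at he
    rw [← mul_assoc] at he
    exact mul_right_cancel he
  · intro hx hy he
    apply (h2 x y).2 hx hy
    simp only [Equiv.trans_apply, Equiv.coe_mulRight] at he
    rw [← mul_assoc, ← mul_assoc] at he
    exact mul_right_cancel he

/-- moving a cell of symbol `z` to a prescribed place -/
theorem normalise [Finite G] {b c z x₁ y₁ : G} (h : Near b c) (hzb : z ≠ b)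
    (hz : x₁ * y₁ = z) : ∃ θ : Equiv.Perm G, ∃ x₀ : G, x₀ * θ x₀ = c ∧ θ x₁ = y₁ ∧ x₁ ≠ x₀ ∧
      Function.Injective (sym θ x₀ b) := by
  classical
  obtain ⟨θ, x₀, h1, h2⟩ := near_iff.1 h
  obtain ⟨r, hr⟩ := (Finite.injective_iff_surjective.1 h2) z
  have hr0 : r ≠ x₀ := by
    rintro rfl
    unfold sym at hr
    rw [if_pos rfl] at hr
    exact hzb hr.symm
  unfold sym at hr
  rw [if_neg hr0] at hr
  set l := x₁⁻¹ * r with hl
  refine ⟨((Equiv.mulRight l).trans θ).trans (Equiv.mulLeft l), x₀ * l⁻¹, ?_, ?_, ?_, ?_⟩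
  · simp only [Equiv.trans_apply, Equiv.coe_mulRight, Equiv.coe_mulLeft]
    rw [inv_mul_cancel_right, ← mul_assoc, inv_mul_cancel_right, h1]
  · simp only [Equiv.trans_apply, Equiv.coe_mulRight, Equiv.coe_mulLeft]
    rw [hl, mul_inv_cancel_left, mul_assoc, hr, ← hz, inv_mul_cancel_left]
  · intro he
    apply hr0
    rw [hl] at he
    rw [eq_mul_inv_iff_mul_eq, mul_inv_cancel_left] at he
    exact he
  · intro x y hxy
    have key : ∀ x, sym (((Equiv.mulRight l).trans θ).trans (Equiv.mulLeft l)) (x₀ * l⁻¹) b x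
        = sym θ x₀ b (x * l) := by
      intro x
      unfold sym
      by_cases hx : x = x₀ * l⁻¹
      · rw [if_pos hx, if_pos (by rw [hx, inv_mul_cancel_right])]
      · rw [if_neg hx, if_neg (fun h => hx (eq_mul_inv_of_mul_eq h))]
        simp [mul_assoc]
    rw [key, key] at hxy
    exact mul_right_cancel (h2 hxy)

/-- The switching lemma. -/
theorem switch {Q : Type*} [Group Q] (q : Q) (x y : Q → G) (hxinj : Function.Injective x)
    (Θ : Equiv.Perm G) (x₀ w c : G) (hc : x₀ * Θ x₀ = c)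
    (hinj : Function.Injective (sym Θ x₀ w)) (hΘ : ∀ i, Θ (x i) = y i) (hx0 : ∀ i, x i ≠ x₀)
    (h1 : ∀ i, i ≠ q⁻¹ → x i * y (i * q * q) = x (i * q) * y (i * q))
    (h2 : x q⁻¹ * y q = w) :
    Near (x 1 * y 1) c := by
  classical
  let ι : Q ↪ G := ⟨x, hxinj⟩
  let ρ : Equiv.Perm G := (Equiv.mulRight (q * q)).viaEmbedding ι
  let ν : Equiv.Perm G := (Equiv.mulRight q).viaEmbedding ι
  have hρ : ∀ i, ρ (x i) = x (i * q * q) := by
    intro i
    have := Equiv.Perm.viaEmbedding_apply (Equiv.mulRight (q * q)) ι i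
    rw [show ι i = x i from rfl] at this
    rw [show ρ = (Equiv.mulRight (q * q)).viaEmbedding ι from rfl, this]
    simp [ι, mul_assoc]
  have hν : ∀ i, ν (x i) = x (i * q) := by
    intro i
    have := Equiv.Perm.viaEmbedding_apply (Equiv.mulRight q) ι i
    rw [show ι i = x i from rfl] at this
    rw [show ν = (Equiv.mulRight q).viaEmbedding ι from rfl, this]
    simp [ι]
  have hρn : ∀ g, (∀ i, x i ≠ g) → ρ g = g := by
    intro g hg
    apply Equiv.Perm.viaEmbedding_apply_of_notMem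
    rintro ⟨i, hi⟩
    exact hg i hi
  have hνn : ∀ g, (∀ i, x i ≠ g) → ν g = g := by
    intro g hg
    apply Equiv.Perm.viaEmbedding_apply_of_notMem
    rintro ⟨i, hi⟩
    exact hg i hi
  refine near_iff.2 ⟨ρ.trans Θ, x₀, ?_, ?_⟩
  · rw [Equiv.trans_apply, hρn x₀ hx0, hc]
  · have key : sym (ρ.trans Θ) x₀ (x 1 * y 1)
        = (sym Θ x₀ w) ∘ (ν.trans (Equiv.swap x₀ (x 1))) := by
      funext g
      simp only [Function.comp, Equiv.trans_apply]
      by_cases hg0 : g = x₀
      · rw [hg0, hνn x₀ hx0, Equiv.swap_apply_left]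
        unfold sym
        rw [if_pos rfl, if_neg (hx0 1), hΘ]
      by_cases hgi : ∃ i, x i = g
      · obtain ⟨i, rfl⟩ := hgi
        rw [hν]
        by_cases hi : i = q⁻¹
        · subst hi
          rw [inv_mul_cancel, Equiv.swap_apply_right]
          unfold sym
          rw [if_neg hg0, if_pos rfl, Equiv.trans_apply, hρ, hΘ, inv_mul_cancel, one_mul, h2]
        · have hne : x (i * q) ≠ x 1 := by
            intro h
            exact hi (eq_inv_of_mul_eq_one_left (hxinj h))
          rw [Equiv.swap_apply_of_ne_of_ne (hx0 _) hne]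
          unfold sym
          rw [if_neg hg0, if_neg (hx0 _), Equiv.trans_apply, hρ, hΘ, hΘ, h1 i hi]
      · push Not at hgi
        rw [hνn g hgi, Equiv.swap_apply_of_ne_of_ne hg0 (fun h => hgi 1 h.symm)]
        unfold sym
        rw [if_neg hg0, if_neg hg0, Equiv.trans_apply, hρn g hgi]
    rw [key]
    exact hinj.comp (Equiv.injective _)

end

end Pool.Agent.Y769.OC
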